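import Pool.Agent.H447.QR.Stm

/-! QR-SC: the points represented by the normal form of a point are congruent to the point
modulo doubles (helper196 for helper447, MP_d6ddbd_nt) -/

set_option autoImplicit false

open WeierstrassCurve

namespace Pool.Agent.H196.QR.SC

open Pool.Agent.H447.QR

lemma eqn_iff (a b X Y : ℚ) : (crv a b).toAffine.Equation X Y ↔ Y ^ 2 = X ^ 3 + a * X + b := by
  rw [Affine.equation_iff]
  show Y ^ 2 + 0 * X * Y + 0 * Y = X ^ 3 + 0 * X ^ 2 + a * X + b ↔ Y ^ 2 = X ^ 3 + a * X + b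
  constructor <;> intro h <;> linear_combination h

lemma disc_ne {a b : ℚ} (hd : 4 * a ^ 3 + 27 * b ^ 2 ≠ 0) : (crv a b).toAffine.Δ ≠ 0 := by
  have h1 : (crv a b).toAffine.Δ = -16 * (4 * a ^ 3 + 27 * b ^ 2) := by
    unfold WeierstrassCurve.Δ WeierstrassCurve.b₂ WeierstrassCurve.b₄ WeierstrassCurve.b₆
      WeierstrassCurve.b₈
    ring
  rw [h1]
  exact mul_ne_zero (by norm_num) hd

lemma nons {a b X Y : ℚ} (hd : 4 * a ^ 3 + 27 * b ^ 2 ≠ 0) (h : Y ^ 2 = X ^ 3 + a * X + b) :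
    (crv a b).toAffine.Nonsingular X Y :=
  (Affine.equation_iff_nonsingular_of_Δ_ne_zero (disc_ne hd)).1 ((eqn_iff a b X Y).2 h)

lemma eqn {a b X Y : ℚ} (h : (crv a b).toAffine.Nonsingular X Y) : Y ^ 2 = X ^ 3 + a * X + b :=
  (eqn_iff a b X Y).1 h.1

lemma negY_eq (a b X Y : ℚ) : (crv a b).toAffine.negY X Y = -Y := by
  show -Y - 0 * X - 0 = -Y
  ring

lemma addX_eq (a b x₁ x₂ s : ℚ) : (crv a b).toAffine.addX x₁ x₂ s = s ^ 2 - x₁ - x₂ := by
  show s ^ 2 + 0 * s - 0 - x₁ - x₂ = s ^ 2 - x₁ - x₂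
  ring

lemma addY_eq (a b x₁ x₂ y₁ s : ℚ) :
    (crv a b).toAffine.addY x₁ x₂ y₁ s = -(y₁ + s * (s ^ 2 - x₁ - x₂ - x₁)) := by
  unfold Affine.addY Affine.negAddY
  rw [negY_eq, addX_eq]
  ring

theorem t_SC : S_SC := by
  intro a b X₀ Y₀ h P hd hrep
  obtain ⟨x, z, y, X, Y, hP, hy, hv, h4, -, rfl⟩ := hrep
  have e0 := eqn h
  by_cases hz : z = 0
  · subst hz
    have hX : X = X₀ := by
      have h1 : y ^ 2 = x ^ 4 := by
        rw [hv]
        unfold Qf.v nf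
        ring
      have h2 : 48 * y ^ 2 * X = 48 * y ^ 2 * X₀ := by
        rw [h4, h1]
        unfold Qf.h4 nf
        ring
      exact mul_left_cancel₀ (mul_ne_zero (by norm_num) (pow_ne_zero 2 hy)) h2
    rcases (Affine.Point.X_eq_iff (h₁ := hP) (h₂ := h)).1 hX with h1 | h1
    · refine ⟨0, ?_⟩
      rw [h1, add_zero, add_zero]
    · refine ⟨-Affine.Point.some X₀ Y₀ h, ?_⟩
      rw [h1, ← add_assoc, add_neg_cancel, zero_add]
  · obtain ⟨t, rfl⟩ : ∃ t, x = t * z := ⟨x / z, by field_simp⟩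
    obtain ⟨w, rfl⟩ : ∃ w, y = w * z ^ 2 := ⟨y / z ^ 2, by field_simp⟩
    have hw : w ≠ 0 := by
      rintro rfl
      exact hy (zero_mul _)
    have hz4 : z ^ 4 ≠ 0 := pow_ne_zero 4 hz
    have hv' : w ^ 2 = t ^ 4 - 6 * X₀ * t ^ 2 + 8 * Y₀ * t - 3 * X₀ ^ 2 - 4 * a := by
      apply mul_left_cancel₀ hz4
      have h1 : z ^ 4 * w ^ 2 = (w * z ^ 2) ^ 2 := by ring
      rw [h1, hv]
      unfold Qf.v nf
      ring
    have hX' : w ^ 2 * X = X₀ * t ^ 4 - 4 * Y₀ * t ^ 3 + (6 * X₀ ^ 2 + 4 * a) * t ^ 2 -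
        4 * X₀ * Y₀ * t + 4 * Y₀ ^ 2 - 3 * X₀ ^ 3 - 4 * a * X₀ := by
      apply mul_left_cancel₀ (mul_ne_zero (by norm_num : (48 : ℚ) ≠ 0) hz4)
      have h1 : 48 * z ^ 4 * (w ^ 2 * X) = 48 * (w * z ^ 2) ^ 2 * X := by ring
      rw [h1, h4]
      unfold Qf.h4 nf
      ring
    -- the two points
    obtain ⟨u1, hu1⟩ : ∃ u1 : ℚ, u1 = (t ^ 2 - X₀ + w) / 2 := ⟨_, rfl⟩
    obtain ⟨u2, hu2⟩ : ∃ u2 : ℚ, u2 = (t ^ 2 - X₀ - w) / 2 := ⟨_, rfl⟩
    obtain ⟨v1, hv1⟩ : ∃ v1 : ℚ, v1 = Y₀ + t * (u1 - X₀) := ⟨_, rfl⟩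
    obtain ⟨v2, hv2⟩ : ∃ v2 : ℚ, v2 = Y₀ + t * (u2 - X₀) := ⟨_, rfl⟩
    have hs : u1 + u2 = t ^ 2 - X₀ := by rw [hu1, hu2]; ring
    have hdw : u1 - u2 = w := by rw [hu1, hu2]; ring
    have hpr : u1 * u2 = a - 2 * t * Y₀ + t ^ 2 * X₀ + X₀ ^ 2 := by
      rw [hu1, hu2]
      linear_combination (-1 / 4) * hv'
    have hne : u1 ≠ u2 := by
      intro hc
      apply hw
      rw [← hdw, hc, sub_self]
    have c1 : v1 ^ 2 = u1 ^ 3 + a * u1 + b := by
      have hb : b = Y₀ ^ 2 - X₀ ^ 3 - a * X₀ := by linear_combination -e0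
      have h1 : (u1 ^ 3 + a * u1 + b) - v1 ^ 2 = 0 := by
        have h2 : u2 = t ^ 2 - X₀ - u1 := by linear_combination hs
        rw [h2] at hpr
        rw [hb, hv1]
        linear_combination (-(u1 - X₀)) * hpr
      linear_combination -h1
    have c2 : v2 ^ 2 = u2 ^ 3 + a * u2 + b := by
      have hb : b = Y₀ ^ 2 - X₀ ^ 3 - a * X₀ := by linear_combination -e0
      have h1 : (u2 ^ 3 + a * u2 + b) - v2 ^ 2 = 0 := by
        have h2 : u1 = t ^ 2 - X₀ - u2 := by linear_combination hs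
        rw [h2] at hpr
        rw [hb, hv2]
        linear_combination (-(u2 - X₀)) * hpr
      linear_combination -h1
    have n1 := nons hd c1
    have n2 := nons hd c2
    have hne' : u1 - u2 ≠ 0 := sub_ne_zero.2 hne
    -- the sum
    have hsl : (v1 - v2) / (u1 - u2) = t := by
      rw [div_eq_iff hne', hv1, hv2]
      ring
    have s1 : Affine.Point.some u1 v1 n1 + Affine.Point.some u2 v2 n2 =
        -Affine.Point.some X₀ Y₀ h := by
      rw [Affine.Point.add_of_X_ne hne, Affine.Point.neg_some, Affine.Point.some.injEq,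
        Affine.slope_of_X_ne hne, hsl, addX_eq, addY_eq, negY_eq]
      constructor
      · linear_combination -hs
      · rw [hv1]
        linear_combination t * hs
    -- the difference
    have s2 : Affine.Point.some X Y hP = Affine.Point.some u1 v1 n1 + -Affine.Point.some u2 v2 n2 ∨
        Affine.Point.some X Y hP =
          -(Affine.Point.some u1 v1 n1 + -Affine.Point.some u2 v2 n2) := by
      rw [Affine.Point.neg_some, Affine.Point.add_of_X_ne hne]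
      apply Affine.Point.X_eq_iff.1
      rw [Affine.slope_of_X_ne hne, addX_eq, negY_eq, sub_neg_eq_add]
      have h1 : v1 + v2 = t ^ 3 - 3 * X₀ * t + 2 * Y₀ := by
        rw [hv1, hv2]
        linear_combination t * hs
      rw [h1, hdw]
      have h2 : X = ((t ^ 3 - 3 * X₀ * t + 2 * Y₀) ^ 2 - w ^ 2 * (t ^ 2 - X₀)) / w ^ 2 := by
        rw [eq_div_iff (pow_ne_zero 2 hw), mul_comm, hX', hv']
        ring
      rw [h2, sub_div, mul_div_assoc, ← hs]
      field_simp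
      ring
    rcases s2 with h1 | h1
    · refine ⟨Affine.Point.some u1 v1 n1, ?_⟩
      have h2 : Affine.Point.some X₀ Y₀ h =
          -(Affine.Point.some u1 v1 n1 + Affine.Point.some u2 v2 n2) := by rw [s1, neg_neg]
      rw [h1, h2]
      abel
    · refine ⟨Affine.Point.some u2 v2 n2, ?_⟩
      have h2 : Affine.Point.some X₀ Y₀ h =
          -(Affine.Point.some u1 v1 n1 + Affine.Point.some u2 v2 n2) := by rw [s1, neg_neg]
      rw [h1, h2]
      abel

end Pool.Agent.H196.QR.SC
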